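import Pool.Agent.H88.OCS.Stmts
import Pool.Agent.H92.M5.Tools

/-!
# Theorem OCS: stage A, assembly

`selection`: from a bound of the mean over the pairs to a choice of one reference for every
sample, measurable with respect to the line and the time. `sta_one`: for most good references
the partners at the scales in `[i₀, 2 n)` agree with the reference up to `2 ^ (k - m - i₀)`.
`sta_thm`: row STA.
-/

set_option autoImplicit false

namespace Pool.OCS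

open Finset Real
open Pool.Agent.H49.Ent Pool.Agent.H32.Dense Pool.STK Pool.KAF

namespace STA

section tools

variable {Ω Ω' S T : Type} [Fintype Ω] [Fintype Ω']

/-- Selection of one partner. -/
theorem selection {p : Ω → ℝ} (hp : IsLaw p) (W : Ω → S) (κ : Ω → T)
    (hκ : ∀ ω ω', κ ω = κ ω' → W ω = W ω') (F : Ω → Ω → ℝ)
    (hF : ∀ ω ω' r, κ ω = κ ω' → F ω r = F ω' r) :
    ∃ ρ : Ω → Ω, (∀ ω ω', κ ω = κ ω' → ρ ω = ρ ω') ∧
      Ex p (fun ω => F ω (ρ ω)) ≤ Ex (dbl p W) (fun w => F w.1 w.2) := by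
  classical
  have hne : Nonempty Ω := by
    by_contra h
    rw [not_nonempty_iff] at h
    have h1 := hp.sum_one
    simp at h1
  have h1 : ∀ c : T, ∃ r : Ω, ∀ ω, κ ω = c → 0 < p ω →
      ∀ r', 0 < p r' → W r' = W ω → F ω r ≤ F ω r' := by
    intro c
    by_cases h : ∃ ω₀, κ ω₀ = c ∧ 0 < p ω₀
    · obtain ⟨ω₀, h2, h3⟩ := h
      obtain ⟨r, hr, hr'⟩ := Finset.exists_min_image
        (univ.filter fun r => 0 < p r ∧ W r = W ω₀) (F ω₀)
        ⟨ω₀, Finset.mem_filter.2 ⟨mem_univ _, h3, rfl⟩⟩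
      refine ⟨r, fun ω h4 _ r' h5 h6 => ?_⟩
      rw [hF ω ω₀ r (h4.trans h2.symm), hF ω ω₀ r' (h4.trans h2.symm)]
      exact hr' r' (Finset.mem_filter.2
        ⟨mem_univ _, h5, h6.trans (hκ ω ω₀ (h4.trans h2.symm))⟩)
    · exact ⟨hne.some, fun ω h4 h5 => absurd ⟨ω, h4, h5⟩ h⟩
  choose ρ' hρ using h1
  refine ⟨fun ω => ρ' (κ ω), fun ω ω' h => congrArg ρ' h, ?_⟩
  rw [Pool.M5T.Ex_dbl]
  refine Ex_mono hp.nonneg fun ω hω => ?_
  have hl := Pool.M5T.isLaw_cnd hp W hω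
  calc F ω (ρ' (κ ω)) = Ex (Pool.Agent.H49.Ent.cond p W (W ω)) (fun _ => F ω (ρ' (κ ω))) :=
        (Ex_const hl.sum_one _).symm
    _ ≤ _ := Ex_mono hl.nonneg fun r hr => by
        have h2 := (cond_pos_iff hp.nonneg W (W ω) r).1 hr
        exact hρ (κ ω) ω rfl hω r h2.1 h2.2

/-- The probability of an event of a gluing, in terms of the conditional probabilities. -/
theorem Pr_glue' {p₁ : Ω → ℝ} {p₂ : Ω' → ℝ} {Z₁ : Ω → T} {Z₂ : Ω' → T}
    (hZ : ∀ z, law p₁ Z₁ z = law p₂ Z₂ z) (F : Set Ω) (G : Ω → Set Ω') :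
    Pr (glue p₁ p₂ Z₁ Z₂) {w | w.1 ∈ F ∧ w.2 ∈ G w.1} =
      Ex p₁ (Set.indicator F (fun x => Pr (Pool.Agent.H49.Ent.cond p₂ Z₂ (Z₁ x)) (G x))) := by
  classical
  rw [Pool.KAF.Pr_eq, Fintype.sum_prod_type]
  unfold Ex
  refine Finset.sum_congr rfl fun x _ => ?_
  by_cases hx : x ∈ F
  · rw [Set.indicator_of_mem hx, Pool.KAF.Pr_eq, Finset.mul_sum]
    refine Finset.sum_congr rfl fun y _ => ?_
    by_cases hy : y ∈ G x
    · rw [if_pos (show ((x, y) : Ω × Ω') ∈ {w : Ω × Ω' | w.1 ∈ F ∧ w.2 ∈ G w.1} from ⟨hx, hy⟩),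
        if_pos hy]
      unfold glue Pool.Agent.H49.Ent.cond
      simp only
      rw [hZ]
      by_cases h : Z₁ x = Z₂ y
      · rw [if_pos h, if_pos h.symm, mul_div_assoc]
      · rw [if_neg h, if_neg (Ne.symm h), mul_zero]
    · rw [if_neg (show ((x, y) : Ω × Ω') ∉ {w : Ω × Ω' | w.1 ∈ F ∧ w.2 ∈ G w.1} from
        fun h => hy h.2), if_neg hy, mul_zero]
  · rw [Set.indicator_of_notMem hx, mul_zero]
    refine Finset.sum_eq_zero fun y _ => ?_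
    rw [if_neg (show ((x, y) : Ω × Ω') ∉ {w : Ω × Ω' | w.1 ∈ F ∧ w.2 ∈ G w.1} from
      fun h => hx h.1)]

theorem Pr_nonneg' {p : Ω → ℝ} (hp : ∀ ω, 0 ≤ p ω) (E : Set Ω) : 0 ≤ Pr p E :=
  law_nonneg hp _ _

theorem Pr_mono' {p : Ω → ℝ} (hp : ∀ ω, 0 ≤ p ω) {E E' : Set Ω}
    (h : ∀ ω, 0 < p ω → ω ∈ E → ω ∈ E') : Pr p E ≤ Pr p E' := by
  classical
  rw [Pool.KAF.Pr_eq, Pool.KAF.Pr_eq]
  refine Finset.sum_le_sum fun ω _ => ?_
  rcases (hp ω).eq_or_lt with h0 | h0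
  · rw [← h0]
    simp
  by_cases h1 : ω ∈ E
  · rw [if_pos h1, if_pos (h ω h0 h1)]
  · rw [if_neg h1]
    split_ifs <;> linarith

theorem Pr_cond_le_one {p : Ω → ℝ} (hp : ∀ ω, 0 ≤ p ω) (Z : Ω → T) (z : T) (E : Set Ω) :
    Pr (Pool.Agent.H49.Ent.cond p Z z) E ≤ 1 := by
  classical
  refine (law_le_total (fun ω => cond_nonneg hp Z z ω) _ _).trans ?_
  by_cases h : law p Z z = 0
  · have h1 : ∀ ω, Pool.Agent.H49.Ent.cond p Z z ω = 0 := by
      intro ω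
      unfold Pool.Agent.H49.Ent.cond
      rw [h]
      simp
    simp [h1]
  · rw [sum_cond p Z h]

theorem Ex_sum' {ι : Type} (p : Ω → ℝ) (s : Finset ι) (f : ι → Ω → ℝ) :
    ∑ i ∈ s, Ex p (f i) = Ex p (fun ω => ∑ i ∈ s, f i ω) := by
  unfold Ex
  rw [Finset.sum_comm]
  refine Finset.sum_congr rfl fun ω _ => ?_
  rw [Finset.mul_sum]

/-- The law of a function of the first sample. -/
theorem law_dbl_fst {p : Ω → ℝ} (hp : IsLaw p) (W : Ω → S) (f : Ω → T) (z : T) :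
    law (dbl p W) (fun w => f w.1) z = law p f z := by
  classical
  unfold law
  rw [Fintype.sum_prod_type]
  refine Finset.sum_congr rfl fun x _ => ?_
  by_cases h : f x = z
  · simp only [h, if_true]
    exact glue_fst hp.nonneg (fun _ => rfl) x
  · simp only [h, if_false, Finset.sum_const_zero]

end tools

section dat

variable (d : Dat)

theorem Qp_nonneg (hp : IsLaw d.P) (i : ℕ) (w) : 0 ≤ d.Qp i w := by
  unfold Dat.Qp dbl
  exact glue_nonneg hp.nonneg hp.nonneg w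

theorem Pr_Q3 (hp : IsLaw d.P) (j i : ℕ) (F : Set (d.Om × d.Om)) (S : d.Om × d.Om → Set d.Om) :
    Pr (d.Q3 j i) {u | u.1 ∈ F ∧ u.2 ∈ S u.1} = Ex (d.Qp j) (Set.indicator F (fun w =>
      Pr (Pool.Agent.H49.Ent.cond d.P (fun ω => (d.L ω, d.Ti i ω)) (d.L w.1, d.Ti i w.1))
        (S w))) := by
  unfold Dat.Q3
  exact Pr_glue' (fun z => law_dbl_fst hp _ (fun ω => (d.L ω, d.Ti i ω)) z) F S

theorem fs_nonneg (hp : IsLaw d.P) (i₀ n : ℕ) (w : d.Om × d.Om) (a : ℝ) : 0 ≤ d.fs i₀ n w a :=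
  Finset.sum_nonneg fun _ _ => Pr_nonneg' (fun ω => cond_nonneg hp.nonneg _ _ ω) _

theorem fs_le (hp : IsLaw d.P) (i₀ n : ℕ) (w : d.Om × d.Om) (a : ℝ) : d.fs i₀ n w a ≤ 2 * n := by
  unfold Dat.fs
  calc _ ≤ ∑ i ∈ Ico i₀ (2 * n), (1 : ℝ) :=
        Finset.sum_le_sum fun _ _ => Pr_cond_le_one hp.nonneg _ _ _
    _ = ((2 * n - i₀ : ℕ) : ℝ) := by simp
    _ ≤ ((2 * n : ℕ) : ℝ) := by exact_mod_cast Nat.sub_le _ _
    _ = 2 * n := by push_cast; ring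

theorem fs_anti (hp : IsLaw d.P) (i₀ n : ℕ) (w : d.Om × d.Om) {a b : ℝ} (h : a ≤ b) :
    d.fs i₀ n w b ≤ d.fs i₀ n w a :=
  Finset.sum_le_sum fun _ _ => Pr_mono' (fun ω => cond_nonneg hp.nonneg _ _ ω)
    fun _ _ hω => lt_of_le_of_lt h hω

theorem ch_congr {w w' : d.Om × d.Om} (h1 : d.T w.1 = d.T w'.1) (h2 : d.T w.2 = d.T w'.2) :
    d.ch w = d.ch w' := by
  funext r
  unfold Dat.ch Dat.sg Dat.ta
  rw [h1, h2]

theorem fs_congr (i₀ n : ℕ) {w w' : d.Om × d.Om} (h0 : d.L w.1 = d.L w'.1)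
    (h1 : d.T w.1 = d.T w'.1) (h2 : d.T w.2 = d.T w'.2) (a : ℝ) :
    d.fs i₀ n w a = d.fs i₀ n w' a := by
  unfold Dat.fs
  refine Finset.sum_congr rfl fun i _ => ?_
  have h3 : (d.L w.1, d.Ti i w.1) = (d.L w'.1, d.Ti i w'.1) := by
    unfold Dat.Ti
    rw [h0, h1]
  have h4 : {ω | a < ‖d.ch (w.1, ω) - d.ch w‖} = {ω | a < ‖d.ch (w'.1, ω) - d.ch w'‖} := by
    ext ω
    simp only [Set.mem_ofPred_eq]
    rw [ch_congr d h1 h2, ch_congr d (w := (w.1, ω)) (w' := (w'.1, ω)) h1 rfl]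
  rw [h3, h4]

theorem ch_norm (w : d.Om × d.Om) : ‖d.ch w‖ * |d.ta w| ≤ ‖d.sg w‖ := by
  have h1 : d.ch w = (d.ta w)⁻¹ • d.sg w := by
    funext r
    unfold Dat.ch
    rw [Pi.smul_apply, smul_eq_mul, div_eq_inv_mul]
  rw [h1, norm_smul, Real.norm_eq_abs, abs_inv]
  by_cases h : d.ta w = 0
  · rw [h]
    simp
  · have h2 : |d.ta w| ≠ 0 := abs_ne_zero.2 h
    field_simp
    exact le_rfl

end dat

/-! ### monotonicity -/

theorem J1_mono {d : Pool.M5.RDat} {J : d.Om → Set ℕ} {h : ℕ} {u a b : ℝ} {B : Set ℕ}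
    (hab : a ≤ b) (H : d.J1 J h u a B) : d.J1 J h u b B := le_trans H hab

theorem TB_mono {d : Dat} {g k' : ℕ} {a b : ℝ} (hab : a ≤ b) (H : TB d g k' a) :
    TB d g k' b := fun i i' h1 h2 => (H i i' h1 h2).trans
  (mul_le_mul_of_nonneg_right hab (sub_nonneg.2 (by exact_mod_cast (by omega : i ≤ i'))))

theorem H1_mono {d : Dat} {a b : ℝ} (hab : a ≤ b) (H : d.H1 a) : d.H1 b := by
  have hX : (0 : ℝ) ≤ d.X := Nat.cast_nonneg _
  have h2 : (0 : ℝ) ≤ Real.log 2 := Real.log_nonneg (by norm_num)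
  refine ⟨H.1.trans (mul_le_mul_of_nonneg_right hab hX), le_trans ?_ H.2⟩
  have h3 : (1 - b) * d.X ≤ (1 - a) * d.X := mul_le_mul_of_nonneg_right (by linarith only [hab]) hX
  exact mul_le_mul_of_nonneg_right h3 h2

theorem H3_mono {d : Dat} {lam : ℕ} {a b : ℝ} (hab : a ≤ b) (H : d.H3 lam a) : d.H3 lam b := by
  have hX : (0 : ℝ) ≤ d.X := Nat.cast_nonneg _
  have h2 : (0 : ℝ) ≤ Real.log 2 := Real.log_nonneg (by norm_num)
  refine le_trans ?_ H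
  have h3 : (2 - b) * d.X ≤ (2 - a) * d.X := mul_le_mul_of_nonneg_right (by linarith only [hab]) hX
  exact mul_le_mul_of_nonneg_right h3 h2

theorem SPS_mono {d : Dat} {m : ℤ} {mu : d.Om × d.Om → ℤ} {lam n j k' a : ℕ} {x y : ℝ}
    (hxy : x ≤ y) (H : SPS d m mu lam n j k' a x) : SPS d m mu lam n j k' a y := by
  obtain ⟨M, h1, h2, h3, h4⟩ := H
  exact ⟨M, h1, h2, h3, h4.trans (mul_le_mul_of_nonneg_right hxy (Nat.cast_nonneg _))⟩

/-! ### one scale `i₀` -/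

theorem sta_one (hQ : QNSStmt) (hS : SPSStmt) (hN : NLSStmt) (hG : GRSStmt) (u ε₉ : ℝ)
    (hu : 0 < u) (hu1 : u ≤ 1) (hε₉ : 0 < ε₉) : ∃ (κ₂ ε₈ : ℝ), 0 < κ₂ ∧ 0 < ε₈ ∧
    ∀ A k' : ℕ, ∃ (k₀ k₅ k₁₀ n₀ : ℕ) (e₀ : ℝ), 0 < e₀ ∧ ∀ (d : Dat)
      (J : d.Om → Set ℕ) (m : ℤ) (n h g i₀ lam j k k₁ : ℕ) (e : ℝ), d.OK A →
      Siz d n h m → n₀ ≤ n → (n : ℝ) ≤ κ₂ * d.X → 64 * g ≤ n → 64 * lam ≤ n → n / 16 ≤ i₀ →
      i₀ ≤ n → n ≤ j → j < 2 * n → k₀ ≤ k → k₁₀ ≤ k₁ → e ≤ e₀ →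
      (∀ (mu : d.Om × d.Om → ℤ) (j : ℕ), d.Lb mu → (∀ w, |mu w| ≤ 64 * d.X) →
        RowS d J mu lam n j k k₁ e ∧ RowS0 d J mu lam n j k k₁ e) →
      d.toR.J1 J h u ε₈ ∅ → TA d g ε₈ → TB d g k' ε₈ → d.H1 ε₈ → d.H3 lam ε₈ →
      Ex (d.Qp j) (Set.indicator (Bg d j k' m)
        (fun w => d.fs i₀ n w ((2 : ℝ) ^ (((k₅ + lam : ℕ) : ℤ) - m - i₀)))) ≤ ε₉ * n := by
  have hd₁ : 0 < u / 64 := by positivity
  have hd₁' : u / 64 ≤ 1 := by linarith only [hu1]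
  have hD : 0 < 1 + 2 / (u / 64) := by positivity
  obtain ⟨εG, hεG, HG⟩ := hG u (ε₉ / (1 + 2 / (u / 64))) hu hu1 (div_pos hε₉ hD)
  obtain ⟨εN, hεN, HN⟩ := hN u εG hu hu1 hεG
  obtain ⟨a, κ₂, εS, eS, ha, hκ₂, hεS, heS, HS⟩ := hS u (min εG εN) hu hu1 (lt_min hεG hεN)
  refine ⟨κ₂, min (min εG εN) (εS * (u / 64) / 4), hκ₂,
    lt_min (lt_min hεG hεN) (by positivity), fun A k' => ?_⟩
  obtain ⟨kS, nS, k₆S, HS⟩ := HS A k'
  obtain ⟨kN, nN, k₆N, eN, heN, HN⟩ := HN A a k'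
  obtain ⟨kG, nG, k₆G, eG, heG, HG⟩ := HG A a k' 0
  refine ⟨a + 12, k₆S + k₆N + k₆G, kS + kN + kG, nS + nN + nG + 2 * (k₆S + k₆N + k₆G),
    min eS (min eN eG), lt_min heS (lt_min heN heG), ?_⟩
  intro d J m n h g i₀ lam j k k₁ e hOK hsiz hn hκ hg hlam hi₀ hi₀' hj hj' hk hk₁ he hRow hJ1
    hTA hTB hH1 hH3
  set k₆ := k₆S + k₆N + k₆G with hk₆
  set ε₈ := min (min εG εN) (εS * (u / 64) / 4) with hε₈
  have e1 : ε₈ ≤ εG := (min_le_left _ _).trans (min_le_left _ _)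
  have e2 : ε₈ ≤ εN := (min_le_left _ _).trans (min_le_right _ _)
  have e3 : ε₈ ≤ εS * (u / 64) / 4 := min_le_right _ _
  have e4 : ε₈ ≤ εS := by
    refine e3.trans ?_
    have := mul_le_mul_of_nonneg_left hd₁' hεS.le
    linarith only [hεS, this]
  have hn1 : 1 ≤ n := by
    have := hsiz.hn
    have := hsiz.h1
    omega
  have hnX := hsiz.nX
  -- the label
  obtain ⟨mu, hlab, hmu1, hmu2⟩ := hQ d A n i₀ j k₆ lam m (u / 64) ε₈ hOK hn1 hd₁ hd₁' hi₀' hj'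
    (by omega) hsiz.m1 hsiz.m2 (fun i hi => by
      have h1 := hTA i (3 * n) (by omega) (by omega)
      push_cast at h1
      exact h1)
  have hmu3 : ∀ w, |mu w| ≤ 64 * d.X := by
    intro w
    have h1 := hlab.lo w
    have h2 := hlab.hi w
    have h3 := hsiz.m2
    rw [abs_le]
    constructor <;> omega
  obtain ⟨hR, hR0⟩ := hRow mu j hlab.det hmu3
  have hq : Pr (d.Qp j) {w | u / 64 * n < d.fs i₀ n w ((2 : ℝ) ^ (1 - mu w))} ≤ εS := by
    refine hmu1.trans ?_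
    rw [div_le_iff₀ hd₁]
    linarith only [e3]
  have hSPS := HS d J m mu n h g i₀ k₆ lam j k k₁ e hOK hsiz (by omega) hκ hg hlam hi₀ hi₀' hj
    hj' (by omega) hlab (by omega) (by omega) (he.trans (min_le_left _ _)) hR hR0
    (J1_mono e4 hJ1) hq (TB_mono e4 hTB) (H1_mono e4 hH1) (H3_mono e4 hH3)
  have hNLS := HN d J m mu n h g i₀ k₆ lam j k k₁ e hOK hsiz (by omega) hg hlam hi₀ hi₀' hj hj'
    (by omega) hlab (by omega) (by omega)
    (he.trans ((min_le_right _ _).trans (min_le_left _ _))) hR (J1_mono e2 hJ1)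
    (SPS_mono (min_le_right _ _) hSPS) (TB_mono e2 hTB)
  have hAGP := HG d J m mu n h g i₀ k₆ lam j k k₁ e hOK hsiz (by omega) hg hlam hi₀ hi₀' hj hj'
    (by omega) hlab (by omega) (by omega)
    (he.trans ((min_le_right _ _).trans (min_le_right _ _))) hR hR0 (J1_mono e1 hJ1)
    (SPS_mono (min_le_left _ _) hSPS) hNLS (TB_mono e1 hTB)
  -- the mean of the number of the scales
  have hp := hOK.law
  have hA : Ex (d.Qp j) (Set.indicator (Bg d j k' m)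
      (fun w => d.fs i₀ n w ((2 : ℝ) ^ (-mu w)))) ≤ ε₉ / (1 + 2 / (u / 64)) * n := by
    refine le_trans (le_of_eq ?_) hAGP
    have h1 : ∀ i ∈ Ico i₀ (2 * n), Pr (d.Q3 j i) {u | u.1 ∈ Bg d j k' m ∧
        (2 : ℝ) ^ (-(mu u.1 + (0 : ℕ))) < ‖d.ch (u.1.1, u.2) - d.ch u.1‖} =
        Ex (d.Qp j) (Set.indicator (Bg d j k' m) (fun w =>
      Pr (Pool.Agent.H49.Ent.cond d.P (fun ω => (d.L ω, d.Ti i ω)) (d.L w.1, d.Ti i w.1))
        {ω | (2 : ℝ) ^ (-mu w) < ‖d.ch (w.1, ω) - d.ch w‖})) := by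
      intro i _
      rw [← Pr_Q3 d hp]
      simp only [Nat.cast_zero, add_zero, Set.mem_ofPred_eq]
    rw [Finset.sum_congr rfl h1, Ex_sum']
    unfold Ex
    refine Finset.sum_congr rfl fun w _ => ?_
    congr 1
    by_cases hw : w ∈ Bg d j k' m
    · simp only [Set.indicator_of_mem hw]
      rfl
    · simp only [Set.indicator_of_notMem hw, Finset.sum_const_zero]
  have hB : Ex (d.Qp j) (Set.indicator (Bg d j k' m)
        (fun w => d.fs i₀ n w ((2 : ℝ) ^ (((k₆ + lam : ℕ) : ℤ) - m - i₀)))) ≤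
      (1 + 2 / (u / 64)) * Ex (d.Qp j) (Set.indicator (Bg d j k' m)
      (fun w => d.fs i₀ n w ((2 : ℝ) ^ (-mu w)))) := by
    rw [← Ex_smul]
    refine Ex_mono (Qp_nonneg d hp j) fun w hw => ?_
    by_cases hwB : w ∈ Bg d j k' m
    · rw [Set.indicator_of_mem hwB, Set.indicator_of_mem hwB]
      have h0 := fs_nonneg d hp i₀ n w ((2 : ℝ) ^ (-mu w))
      have h0' : (0 : ℝ) < 2 / (u / 64) := by positivity
      rcases (hlab.hi w).lt_or_eq with h1 | h1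
      · have h2 := hmu2 w hw h1
        have h3 := fs_le d hp i₀ n w ((2 : ℝ) ^ (((k₆ + lam : ℕ) : ℤ) - m - i₀))
        have h4 : 2 / (u / 64) * (u / 64 * n) ≤
            2 / (u / 64) * d.fs i₀ n w ((2 : ℝ) ^ (-mu w)) :=
          mul_le_mul_of_nonneg_left h2.le h0'.le
        have h5 : 2 / (u / 64) * (u / 64 * n) = 2 * n := by
          field_simp
        nlinarith only [h0, h3, h4, h5]
      · have h2 : ((k₆ + lam : ℕ) : ℤ) - m - i₀ = -mu w := by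
          push_cast
          omega
        rw [h2]
        have h3 := mul_nonneg h0'.le h0
        linarith only [h3]
    · rw [Set.indicator_of_notMem hwB, Set.indicator_of_notMem hwB, mul_zero]
  refine hB.trans ((mul_le_mul_of_nonneg_left hA hD.le).trans (le_of_eq ?_))
  field_simp

/-! ### the choice of the reference -/

/-- The three scales `i₀`. -/
def sc (n : ℕ) : Fin 3 → ℕ := ![n / 16, n / 4, n]

open Classical in
/-- The function of a sample and of its reference. -/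
noncomputable def FF (d : Dat) (G : Set d.Om) (m : ℤ) (n K : ℕ) (ω r : d.Om) : ℝ :=
  if ω ∈ G then (if (2 : ℝ) ^ (-m) * |d.ta (ω, r)| < ‖d.sg (ω, r)‖ then 1 else 0) +
    ∑ b : Fin 3, d.fs (sc n b) n (ω, r) ((2 : ℝ) ^ ((K : ℤ) - m - sc n b)) / n else 0

theorem FF_nonneg {d : Dat} (hp : IsLaw d.P) (G : Set d.Om) (m : ℤ) (n K : ℕ) (ω r : d.Om) :
    0 ≤ FF d G m n K ω r := by
  unfold FF
  have h1 : 0 ≤ ∑ b : Fin 3, d.fs (sc n b) n (ω, r) ((2 : ℝ) ^ ((K : ℤ) - m - sc n b)) / n :=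
    Finset.sum_nonneg fun b _ => div_nonneg (fs_nonneg d hp _ _ _ _) (Nat.cast_nonneg _)
  split_ifs
  · linarith only [h1]
  · linarith only [h1]
  · exact le_rfl

theorem FF_congr {d : Dat} {G : Set d.Om}
    (hG : ∀ ω ω', d.L ω = d.L ω' → d.T ω = d.T ω' → (ω ∈ G ↔ ω' ∈ G)) (m : ℤ) (n K : ℕ)
    {ω ω' : d.Om} (r : d.Om) (h1 : d.L ω = d.L ω') (h2 : d.T ω = d.T ω') :
    FF d G m n K ω r = FF d G m n K ω' r := by
  unfold FF
  have h3 : d.ta (ω, r) = d.ta (ω', r) := by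
    unfold Dat.ta
    rw [h2]
  have h4 : d.sg (ω, r) = d.sg (ω', r) := by
    funext i
    unfold Dat.sg
    rw [h2]
  have h5 : ∀ b, d.fs (sc n b) n (ω, r) ((2 : ℝ) ^ ((K : ℤ) - m - sc n b)) =
      d.fs (sc n b) n (ω', r) ((2 : ℝ) ^ ((K : ℤ) - m - sc n b)) := fun b =>
    fs_congr d (sc n b) n (w := (ω, r)) (w' := (ω', r)) h1 h2 rfl _
  simp only [h3, h4, h5]
  by_cases hω : ω ∈ G
  · rw [if_pos hω, if_pos ((hG ω ω' h1 h2).1 hω)]
  · rw [if_neg hω, if_neg (fun h => hω ((hG ω ω' h1 h2).2 h))]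

/-- A large value at one scale. -/
theorem FF_ge {d : Dat} (hp : IsLaw d.P) (G : Set d.Om) (m : ℤ) (n K : ℕ) {ω : d.Om}
    (r : d.Om) (hω : ω ∈ G) (b : Fin 3) :
    d.fs (sc n b) n (ω, r) ((2 : ℝ) ^ ((K : ℤ) - m - sc n b)) / n ≤ FF d G m n K ω r := by
  unfold FF
  rw [if_pos hω]
  have h1 := Finset.single_le_sum (f := fun b : Fin 3 =>
    d.fs (sc n b) n (ω, r) ((2 : ℝ) ^ ((K : ℤ) - m - sc n b)) / n)
    (fun b _ => div_nonneg (fs_nonneg d hp _ _ _ _) (Nat.cast_nonneg _)) (Finset.mem_univ b)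
  have h2 : (0 : ℝ) ≤ if (2 : ℝ) ^ (-m) * |d.ta (ω, r)| < ‖d.sg (ω, r)‖ then 1 else 0 := by
    split_ifs <;> norm_num
  linarith only [h1, h2]

/-- The mean of the function over the pairs. -/
theorem FF_mean {d : Dat} (hp : IsLaw d.P) (G : Set d.Om) (m : ℤ) (n K j k' : ℕ) (hn : 1 ≤ n)
    {e : ℝ} (H : ∀ b, Ex (d.Qp j) (Set.indicator (Bg d j k' m)
      (fun w => d.fs (sc n b) n w ((2 : ℝ) ^ ((K : ℤ) - m - sc n b)))) ≤ e * n) :
    Ex (d.Qp j) (fun w => FF d G m n K w.1 w.2) ≤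
      7 * (Pr (d.Qp j) {w | w.1 ∈ G ∧ (2 : ℝ) ^ (-m) * |d.ta w| < ‖d.sg w‖} +
        Pr (d.Qp j) {w | |d.ta w| < (2 : ℝ) ^ (-((j : ℤ) + k'))}) + 3 * e := by
  classical
  have hn' : (0 : ℝ) < n := by exact_mod_cast hn
  have hq := Qp_nonneg d hp j
  set E₁ : Set (d.Om × d.Om) := {w | w.1 ∈ G ∧ (2 : ℝ) ^ (-m) * |d.ta w| < ‖d.sg w‖} with hE₁
  set E₂ : Set (d.Om × d.Om) := {w | |d.ta w| < (2 : ℝ) ^ (-((j : ℤ) + k'))} with hE₂
  have key : ∀ w, 0 < d.Qp j w → FF d G m n K w.1 w.2 ≤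
      (7 * (if w ∈ E₁ then (1 : ℝ) else 0) + 6 * (if w ∈ E₂ then (1 : ℝ) else 0)) +
      ∑ b : Fin 3, (1 / n : ℝ) * Set.indicator (Bg d j k' m)
        (fun w => d.fs (sc n b) n w ((2 : ℝ) ^ ((K : ℤ) - m - sc n b))) w := by
    intro w _
    unfold FF
    have hI : ∀ b : Fin 3, 0 ≤ (1 / n : ℝ) * Set.indicator (Bg d j k' m)
        (fun w => d.fs (sc n b) n w ((2 : ℝ) ^ ((K : ℤ) - m - sc n b))) w := fun b =>
      mul_nonneg (by positivity) (Set.indicator_nonneg (fun w _ => fs_nonneg d hp _ _ _ _) _)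
    have hI' := Finset.sum_nonneg (s := Finset.univ) (fun b (_ : b ∈ Finset.univ) => hI b)
    have h1 : (0 : ℝ) ≤ if w ∈ E₁ then (1 : ℝ) else 0 := by split_ifs <;> norm_num
    have h2 : (0 : ℝ) ≤ if w ∈ E₂ then (1 : ℝ) else 0 := by split_ifs <;> norm_num
    by_cases hG : w.1 ∈ G
    · rw [if_pos hG]
      by_cases hB : w ∈ Bg d j k' m
      · have h3 : ∀ b : Fin 3, d.fs (sc n b) n (w.1, w.2)
            ((2 : ℝ) ^ ((K : ℤ) - m - sc n b)) / n = (1 / n : ℝ) * Set.indicator (Bg d j k' m)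
            (fun w => d.fs (sc n b) n w ((2 : ℝ) ^ ((K : ℤ) - m - sc n b))) w := by
          intro b
          rw [Set.indicator_of_mem hB]
          ring
        rw [Finset.sum_congr rfl fun b _ => h3 b]
        have h4 : (if (2 : ℝ) ^ (-m) * |d.ta (w.1, w.2)| < ‖d.sg (w.1, w.2)‖ then (1 : ℝ)
            else 0) = 0 := if_neg (not_lt.2 hB.1)
        rw [h4]
        linarith only [h1, h2]
      · have h3 : ∀ b : Fin 3, d.fs (sc n b) n (w.1, w.2)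
            ((2 : ℝ) ^ ((K : ℤ) - m - sc n b)) / n ≤ 2 := by
          intro b
          rw [div_le_iff₀ hn']
          exact fs_le d hp _ _ _ _
        have h4 : ∑ b : Fin 3, d.fs (sc n b) n (w.1, w.2)
            ((2 : ℝ) ^ ((K : ℤ) - m - sc n b)) / n ≤ 6 := by
          have := Finset.sum_le_sum (s := Finset.univ) fun b (_ : b ∈ Finset.univ) => h3 b
          refine this.trans (le_of_eq ?_)
          simp
          norm_num
        have h5 : w ∈ E₁ ∨ w ∈ E₂ := by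
          by_contra hc
          push Not at hc
          refine hB ⟨?_, ?_⟩
          · by_contra h
            exact hc.1 ⟨hG, not_le.1 h⟩
          · by_contra h
            exact hc.2 (not_le.1 h)
        by_cases h6 : w ∈ E₁
        · have h7 : (if w ∈ E₁ then (1 : ℝ) else 0) = 1 := if_pos h6
          have h8 : (if (2 : ℝ) ^ (-m) * |d.ta (w.1, w.2)| < ‖d.sg (w.1, w.2)‖ then (1 : ℝ)
            else 0) ≤ 1 := by split_ifs <;> norm_num
          rw [h7]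
          linarith only [hI', h2, h4, h8]
        · have h7 : (if w ∈ E₂ then (1 : ℝ) else 0) = 1 := if_pos (h5.resolve_left h6)
          have h8 : (if (2 : ℝ) ^ (-m) * |d.ta (w.1, w.2)| < ‖d.sg (w.1, w.2)‖ then (1 : ℝ)
            else 0) = 0 := if_neg fun h => h6 ⟨hG, h⟩
          rw [h7, h8]
          linarith only [hI', h1, h4]
    · rw [if_neg hG]
      linarith only [hI', h1, h2]
  refine (Ex_mono hq key).trans ?_
  rw [Ex_add, Ex_add, Ex_smul, Ex_smul, Pool.M5T.Ex_ind, Pool.M5T.Ex_ind, ← Ex_sum']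
  have h9 : ∑ b : Fin 3, Ex (d.Qp j) (fun w => (1 / n : ℝ) * Set.indicator (Bg d j k' m)
      (fun w => d.fs (sc n b) n w ((2 : ℝ) ^ ((K : ℤ) - m - sc n b))) w) ≤ ∑ b : Fin 3, e := by
    refine Finset.sum_le_sum fun b _ => ?_
    rw [Ex_smul]
    have h10 := mul_le_mul_of_nonneg_left (H b) (show (0 : ℝ) ≤ 1 / n by positivity)
    have h11 : (1 / n : ℝ) * (e * n) = e := by field_simp
    rw [h11] at h10
    exact h10
  have h12 : ∑ b : Fin 3, e = 3 * e := by simp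
  have h13 : 0 ≤ Pr (d.Qp j) E₂ := Pr_nonneg' hq _
  linarith only [h9, h12, h13]

/-- The bound at the scales `≥ i₀`. -/
theorem ags_of {d : Dat} (hp : IsLaw d.P) (G : Set d.Om) (m : ℤ) (n K g k' : ℕ) (hn : 1 ≤ n)
    (ρ : d.Om → d.Om) (b : Fin 3) {x y : ℝ} (hx : Ex d.P (fun ω => FF d G m n K ω (ρ ω)) ≤ x)
    (hy : 0 ≤ y) (hTB : TB d g k' y) (hg : sc n b + g ≤ 2 * n) (hX : 2 * n ≤ d.X) :
    AGS d G m n (sc n b) K (fun ω => d.ch (ω, ρ ω)) (x + 2 * y) := by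
  classical
  have hn' : (0 : ℝ) < n := by exact_mod_cast hn
  have h1 := hTB (sc n b) (2 * n) hg hX
  have h2 : y * (((2 * n : ℕ) : ℝ) - sc n b) ≤ 2 * y * n := by
    have h3 : (0 : ℝ) ≤ (sc n b : ℝ) := Nat.cast_nonneg _
    push_cast
    nlinarith only [hy]
  have h3 : ∀ i ∈ Ico (sc n b) (2 * n), Pr (d.Qp i) {w | w.1 ∈ G ∧
      (2 : ℝ) ^ ((K : ℤ) - m - sc n b) * |d.ta w| <
        ‖fun r => d.sg w r - d.ta w * d.ch (w.1, ρ w.1) r‖} ≤
      Pr (d.Qp i) {w | w.1 ∈ G ∧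
        (2 : ℝ) ^ ((K : ℤ) - m - sc n b) < ‖d.ch w - d.ch (w.1, ρ w.1)‖} +
      Pr (d.Qp i) {w | |d.ta w| < (2 : ℝ) ^ (-((i : ℤ) + k'))} := by
    intro i _
    refine Pool.M5T.Pr_or (Qp_nonneg d hp i) fun w _ hw => ?_
    by_cases h : d.ta w = 0
    · right
      show |d.ta w| < _
      rw [h, abs_zero]
      positivity
    · left
      refine ⟨hw.1, ?_⟩
      have h4 : (fun r => d.sg w r - d.ta w * d.ch (w.1, ρ w.1) r) =
          d.ta w • (d.ch w - d.ch (w.1, ρ w.1)) := by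
        funext r
        rw [Pi.smul_apply, Pi.sub_apply, smul_eq_mul, mul_sub]
        congr 1
        unfold Dat.ch
        field_simp
      have h5 := hw.2
      rw [h4, norm_smul, Real.norm_eq_abs, mul_comm |d.ta w|] at h5
      exact lt_of_mul_lt_mul_right h5 (abs_nonneg _)
  have h4 : ∑ i ∈ Ico (sc n b) (2 * n), Pr (d.Qp i) {w | w.1 ∈ G ∧
        (2 : ℝ) ^ ((K : ℤ) - m - sc n b) < ‖d.ch w - d.ch (w.1, ρ w.1)‖} ≤ x * n := by
    have h5 : ∀ i ∈ Ico (sc n b) (2 * n), Pr (d.Qp i) {w | w.1 ∈ G ∧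
        (2 : ℝ) ^ ((K : ℤ) - m - sc n b) < ‖d.ch w - d.ch (w.1, ρ w.1)‖} =
        Ex d.P (fun ω => Pr (Pool.Agent.H49.Ent.cond d.P (fun ω => (d.L ω, d.Ti i ω))
          (d.L ω, d.Ti i ω)) {ω' | ω ∈ G ∧
            (2 : ℝ) ^ ((K : ℤ) - m - sc n b) < ‖d.ch (ω, ω') - d.ch (ω, ρ ω)‖}) := by
      intro i _
      unfold Dat.Qp
      rw [Pool.M5T.Pr_dbl]
      rfl
    rw [Finset.sum_congr rfl h5, Ex_sum']
    have h6 : Ex d.P (fun ω => n * FF d G m n K ω (ρ ω)) ≤ x * n := by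
      rw [Ex_smul, mul_comm]
      exact mul_le_mul_of_nonneg_right hx hn'.le
    refine le_trans (Ex_mono hp.nonneg fun ω _ => ?_) h6
    by_cases hω : ω ∈ G
    · have h7 := FF_ge hp G m n K (ρ ω) hω b
      rw [div_le_iff₀ hn', mul_comm] at h7
      refine le_trans (le_of_eq ?_) h7
      unfold Dat.fs
      refine Finset.sum_congr rfl fun i _ => ?_
      simp only [hω, true_and]
    · have h7 := mul_nonneg hn'.le (FF_nonneg hp G m n K ω (ρ ω))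
      refine le_trans (le_of_eq (Finset.sum_eq_zero fun i _ => ?_)) h7
      rw [Pool.KAF.Pr_eq]
      simp only [hω, false_and, Set.ofPred_false, Set.mem_empty_iff_false, if_false,
        Finset.sum_const_zero]
  unfold AGS
  refine (Finset.sum_le_sum h3).trans ?_
  rw [Finset.sum_add_distrib, add_mul]
  linarith only [h1, h2, h4]

end STA

open STA in
/-- Row STA. -/
theorem sta_thm (hQ : QNSStmt) (hS : SPSStmt) (hN : NLSStmt) (hG : GRSStmt) : STAStmt := by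
  classical
  intro u ε₁₀ hu hu1 hε
  obtain ⟨κ₂, ε', hκ₂, hε', H⟩ := sta_one hQ hS hN hG u (ε₁₀ / 12) hu hu1 (by positivity)
  refine ⟨κ₂, min ε' (ε₁₀ / 36), hκ₂, lt_min hε' (by positivity), fun A k' => ?_⟩
  obtain ⟨k₀, k₅, k₁₀, n₀, e₀, he₀, H⟩ := H A k'
  refine ⟨k₀, k₅, k₁₀, n₀, e₀, he₀, ?_⟩
  intro d J G m n h g lam k k₁ e ε hOK hsiz hn hκ hg hlam hk hk₁ he hRow hJ1 hTA hTB hH1 hH3
    hGm hBND
  set ε₈ := min ε' (ε₁₀ / 36) with hε₈
  have e1 : ε₈ ≤ ε' := min_le_left _ _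
  have e2 : ε₈ ≤ ε₁₀ / 36 := min_le_right _ _
  have e0 : 0 ≤ ε₈ := (lt_min hε' (by positivity)).le
  have hp := hOK.law
  have hn1 : 16 ≤ n := by
    have := hsiz.hn
    have := hsiz.h1
    omega
  have hn' : (0 : ℝ) < n := by exact_mod_cast (by omega : 0 < n)
  have hnX := hsiz.nX
  have hTA' : TA d g ε' := fun i i' h1 h2 => (hTA i i' h1 h2).trans e1
  -- the scale of the reference
  obtain ⟨j, hj, hj1⟩ : ∃ j ∈ Ico n (2 * n),
      Pr (d.Qp j) {w | w.1 ∈ G ∧ (2 : ℝ) ^ (-m) * |d.ta w| < ‖d.sg w‖} +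
        Pr (d.Qp j) {w | |d.ta w| < (2 : ℝ) ^ (-((j : ℤ) + k'))} ≤ ε + ε₈ := by
    refine Finset.exists_le_of_sum_le (Finset.nonempty_Ico.2 (by omega)) ?_
    rw [Finset.sum_add_distrib, Finset.sum_const, Nat.card_Ico, nsmul_eq_mul]
    have h1 : ∑ i ∈ Ico n (2 * n), Pr (d.Qp i)
        {w | w.1 ∈ G ∧ (2 : ℝ) ^ (-m) * |d.ta w| < ‖d.sg w‖} ≤ ε * n := by
      refine le_trans (Finset.sum_le_sum_of_subset_of_nonneg
        (Finset.Ico_subset_Ico_left (Nat.div_le_self _ _))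
        fun i _ _ => Pr_nonneg' (Qp_nonneg d hp i) _) hBND
    have h2 := hTB n (2 * n) (by omega) (by omega)
    have h3 : ((2 * n - n : ℕ) : ℝ) = n := by
      rw [show 2 * n - n = n by omega]
    rw [h3]
    push_cast at h2
    linarith only [h1, h2]
  obtain ⟨hj2, hj3⟩ := Finset.mem_Ico.1 hj
  have hsc1 : ∀ b, n / 16 ≤ sc n b := by
    intro b
    fin_cases b
    · exact le_rfl
    · show n / 16 ≤ n / 4
      omega
    · show n / 16 ≤ n
      omega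
  have hsc2 : ∀ b, sc n b ≤ n := by
    intro b
    fin_cases b
    · show n / 16 ≤ n
      omega
    · show n / 4 ≤ n
      omega
    · exact le_rfl
  have hM := FF_mean hp G m n (k₅ + lam) j k' (by omega) (e := ε₁₀ / 12) fun b =>
    H d J m n h g (sc n b) lam j k k₁ e hOK hsiz hn hκ hg hlam (hsc1 b) (hsc2 b) hj2 hj3 hk hk₁
      he hRow (J1_mono e1 hJ1) hTA' (TB_mono e1 hTB) (H1_mono e1 hH1) (H3_mono e1 hH3)
  -- the choice
  obtain ⟨ρ, hρ1, hρ2⟩ := selection hp (fun ω => (d.L ω, d.Ti j ω)) (fun ω => (d.L ω, d.T ω))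
    (fun ω ω' h => by
      have h1 := Prod.ext_iff.1 h
      unfold Dat.Ti
      exact Prod.ext h1.1 (by
        show ⌊(2 : ℝ) ^ j * d.th (d.T ω)⌋ = ⌊(2 : ℝ) ^ j * d.th (d.T ω')⌋
        rw [show d.T ω = d.T ω' from h1.2]))
    (FF d G m n (k₅ + lam)) (fun ω ω' r h =>
      FF_congr hGm m n _ r (Prod.ext_iff.1 h).1 (Prod.ext_iff.1 h).2)
  have hε0 : 0 ≤ ε := by
    by_contra hc
    have h1 : 0 ≤ ε * n := le_trans (Finset.sum_nonneg fun i _ =>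
      Pr_nonneg' (Qp_nonneg d hp i) _) hBND
    have h2 : ε * n < 0 := mul_neg_of_neg_of_pos (not_le.1 hc) hn'
    linarith only [h1, h2]
  have hx : Ex d.P (fun ω => FF d G m n (k₅ + lam) ω (ρ ω)) ≤ 7 * (ε + ε₈) + ε₁₀ / 4 := by
    refine hρ2.trans (hM.trans ?_)
    linarith only [hj1]
  have hfin : 7 * (ε + ε₈) + ε₁₀ / 4 + 2 * ε₈ ≤ 16 * ε + ε₁₀ := by linarith only [hε, e2, hε0]
  have hAGS : ∀ b, AGS d G m n (sc n b) (k₅ + lam) (fun ω => d.ch (ω, ρ ω))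
      (16 * ε + ε₁₀) := fun b =>
    le_trans (ags_of hp G m n (k₅ + lam) g k' (by omega) ρ b hx e0 hTB
      (by have := hsc2 b; omega) (by omega)) (mul_le_mul_of_nonneg_right hfin hn'.le)
  refine ⟨fun ω => d.ch (ω, ρ ω), fun ω ω' h1 h2 => ?_, ?_, hAGS 0, hAGS 1, hAGS 2⟩
  · exact ch_congr d h2 (congrArg d.T (hρ1 ω ω' (Prod.ext h1 h2)))
  · refine le_trans ?_ (hx.trans (by linarith only [hε, e2, hε0]))
    rw [← Pool.M5T.Ex_ind]
    refine Ex_mono hp.nonneg fun ω _ => ?_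
    by_cases hω : ω ∈ {ω | ω ∈ G ∧ (2 : ℝ) ^ (-m) < ‖d.ch (ω, ρ ω)‖}
    · rw [if_pos hω]
      unfold FF
      rw [if_pos hω.1]
      have h1 : (2 : ℝ) ^ (-m) * |d.ta (ω, ρ ω)| < ‖d.sg (ω, ρ ω)‖ := by
        have h2 : d.ta (ω, ρ ω) ≠ 0 := by
          intro h0
          have h3 : d.ch (ω, ρ ω) = 0 := by
            funext r
            unfold Dat.ch
            rw [h0, div_zero]
            rfl
          have h4 := hω.2
          rw [h3, norm_zero] at h4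
          have h5 : (0 : ℝ) < (2 : ℝ) ^ (-m) := by positivity
          linarith only [h4, h5]
        exact lt_of_lt_of_le (mul_lt_mul_of_pos_right hω.2 (abs_pos.2 h2)) (ch_norm d _)
      rw [if_pos h1]
      have h2 := Finset.sum_nonneg (s := Finset.univ) (fun (b : Fin 3)
        (_ : b ∈ Finset.univ) => div_nonneg (fs_nonneg d hp (sc n b) n (ω, ρ ω)
          ((2 : ℝ) ^ (((k₅ + lam : ℕ) : ℤ) - m - sc n b))) (Nat.cast_nonneg n))
      linarith only [h2]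
    · rw [if_neg hω]
      exact FF_nonneg hp _ _ _ _ _ _

end Pool.OCS
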